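import Pool.Agent.V1150.PiDeg.Lower

/-!
# MP_d028d5_al, Q1 (a) and (b): the relative rho-sigma questions have negative answers

For every infinite set `π` of primes with `7 ∈ π` and `2, 3 ∉ π` (for instance the set of all primes
`≥ 5`) there are finite groups `G` with `σ_π(G) ≤ 2` and `|ρ_π(G)|` arbitrarily large.

The groups: let `K = GL(3,2)`, acting on `V = F_2^3` and on its dual `V*`.  For `m ≥ 1` and each
string `e` in `{V, V*}^m` choose a prime `p_e ≥ 11` in `π`, and let `K^m` act on the tensor product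
`T_e` of the modules in the string `e`.  Put `A = ⊕_e (T_e)^{p_e}`, with the cyclic group of order
`p_e` permuting the `p_e` summands of `(T_e)^{p_e}`, and `G = A ⋊ (K^m × ∏ C_{p_e})`.  A subgroup of
`K` of index prime to 6 cannot fix a nonzero vector and a nonzero covector, so by Clifford theory a
character of degree prime to 6 has at most one active component `e`, and then its degree is only
divisible by `7` and `p_e`.  On the other hand every `p_e` divides the degree `p_e 7^m` of a character.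
-/

set_option linter.unusedSectionVars false
set_option linter.style.haveILetI false

namespace Pool.Agent.Results.MP_d028d5_al.NoBound

open Pool.Agent.V1150.PiDeg

/-- `n` is the degree of an irreducible complex character (representation) of `G`. -/
def IsIrrDegree (G : Type) [Group G] (n : ℕ) : Prop :=
  ∃ (V : Type) (_ : AddCommGroup V) (_ : Module ℂ V) (_ : FiniteDimensional ℂ V)
    (ρ : Representation ℂ G V), ρ.IsIrreducible ∧ Module.finrank ℂ V = n

/-- `n` is a (positive) `π`-number: all its prime divisors lie in `π`. -/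
def IsPiNumber (π : Set ℕ) (n : ℕ) : Prop := 0 < n ∧ ∀ q : ℕ, q.Prime → q ∣ n → q ∈ π

/-- `ρ_π(G)`: the primes dividing the degree of some character in `Irr_π(G)`. -/
def rhoPi (π : Set ℕ) (G : Type) [Group G] : Set ℕ :=
  {q | q.Prime ∧ ∃ n, IsIrrDegree G n ∧ IsPiNumber π n ∧ q ∣ n}

/-- `σ_π(G)`: the maximal number of primes dividing the degree of a character in `Irr_π(G)`. -/
noncomputable def sigmaPi (π : Set ℕ) (G : Type) [Group G] : ℕ :=
  sSup {k | ∃ n, IsIrrDegree G n ∧ IsPiNumber π n ∧ k = n.primeFactors.card}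

/-- The set of all primes `≥ 5`. -/
def P5 : Set ℕ := {q | q.Prime ∧ 5 ≤ q}

lemma main (π : Set ℕ) (hπ : ∀ q ∈ π, q.Prime) (hinf : π.Infinite) (h7 : 7 ∈ π) (h2 : 2 ∉ π)
    (h3 : 3 ∉ π) (N : ℕ) : ∃ (G : Type) (_ : Group G), Finite G ∧
      (∀ n, IsIrrDegree G n → IsPiNumber π n → n.primeFactors.card ≤ 2) ∧ sigmaPi π G ≤ 2 ∧
      (rhoPi π G).Finite ∧ N ≤ (rhoPi π G).ncard := by
  classical
  -- the primes
  have hS : (π \ {q | q < 11}).Infinite := hinf.sdiff (Set.finite_lt_nat 11)
  haveI : Infinite ↥(π \ {q | q < 11}) := hS.to_subtype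
  let E : Str N → ℕ := fun e => Fintype.equivFin (Str N) e
  have hE : Function.Injective E := by
    intro e e' h
    exact (Fintype.equivFin (Str N)).injective (Fin.val_injective h)
  let p : Str N → ℕ := fun e => (Infinite.natEmbedding ↥(π \ {q | q < 11}) (E e) : ℕ)
  have hinj : Function.Injective p := by
    intro e e' h
    exact hE ((Infinite.natEmbedding _).injective (Subtype.ext h))
  have hpmem : ∀ e, p e ∈ π := fun e => (Infinite.natEmbedding ↥(π \ {q | q < 11}) (E e)).2.1
  have hp : ∀ e, (p e).Prime := fun e => hπ _ (hpmem e)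
  have hp11 : ∀ e, 11 ≤ p e := by
    intro e
    have h := (Infinite.natEmbedding ↥(π \ {q | q < 11}) (E e)).2.2
    simpa using h
  haveI : ∀ e, NeZero (p e) := fun e => ⟨(hp e).ne_zero⟩
  have hup : ∀ n, IsIrrDegree (GG p) n → IsPiNumber π n → n.primeFactors.card ≤ 2 := by
    rintro n ⟨V, _, _, _, ρ, hρ, rfl⟩ hn
    refine upper hp hp11 hinj ρ hρ ?_ ?_
    · intro h
      exact h2 (hn.2 2 Nat.prime_two h)
    · intro h
      exact h3 (hn.2 3 Nat.prime_three h)
  have hlow : ∀ e, IsIrrDegree (GG p) (p e * 7 ^ N) := fun e =>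
    ⟨XX p e → ℂ, inferInstance, inferInstance, inferInstance, RR p e, RR_irr e, finrank_RR e⟩
  have hpi : ∀ e, IsPiNumber π (p e * 7 ^ N) := by
    intro e
    refine ⟨Nat.mul_pos (hp e).pos (pow_pos (by norm_num) N), ?_⟩
    intro q hq hd
    rcases hq.dvd_mul.mp hd with hd | hd
    · rw [(Nat.prime_dvd_prime_iff_eq hq (hp e)).mp hd]
      exact hpmem e
    · rw [(Nat.prime_dvd_prime_iff_eq hq (by norm_num)).mp (hq.dvd_of_dvd_pow hd)]
      exact h7
  have hmem : ∀ e, p e ∈ rhoPi π (GG p) := fun e =>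
    ⟨hp e, p e * 7 ^ N, hlow e, hpi e, dvd_mul_right _ _⟩
  have hfin : (rhoPi π (GG p)).Finite := by
    apply (Nat.card (GG p)).primeFactors.finite_toSet.subset
    rintro q ⟨hq, n, ⟨V, _, _, _, ρ, hρ, rfl⟩, _, hd⟩
    haveI : Fact q.Prime := ⟨hq⟩
    haveI : Fintype (GG p) := Fintype.ofFinite _
    rw [Finset.mem_coe, Nat.mem_primeFactors]
    refine ⟨hq, ?_, Nat.card_pos.ne'⟩
    by_contra hn
    exact Pool.Agent.Helper884.PK.deg_not_dvd q hn ρ hρ hd
  refine ⟨GG p, inferInstance, inferInstance, hup, ?_, hfin, ?_⟩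
  · apply csSup_le
    · exact ⟨_, p (fun _ => false) * 7 ^ N, hlow _, hpi _, rfl⟩
    · rintro k ⟨n, h1, h2', rfl⟩
      exact hup n h1 h2'
  · have h1 : (Set.range p).ncard ≤ (rhoPi π (GG p)).ncard := by
      apply Set.ncard_le_ncard _ hfin
      rintro _ ⟨e, rfl⟩
      exact hmem e
    refine le_trans ?_ h1
    have h4 : (Set.range p).ncard = Nat.card (Str N) := by
      rw [← Set.image_univ, Set.ncard_image_of_injective _ hinj, Set.ncard_univ]
    rw [h4, Nat.card_eq_fintype_card, Fintype.card_fun, Fintype.card_bool, Fintype.card_fin]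
    exact Nat.lt_two_pow_self.le

/-- **Theorem.**  Let `π` be an infinite set of primes with `7 ∈ π`, `2 ∉ π`, `3 ∉ π` (the last
clause says that the set of all primes `≥ 5` is such a set).  Then
* there are finite groups `G` with `σ_π(G) ≤ 2` and `|ρ_π(G)|` arbitrarily large;
* (Q1 (a)) no function `f`, depending on `π` but not on `G`, satisfies `|ρ_π(G)| ≤ f(σ_π(G))` for all
  finite groups `G`;
* (Q1 (b)) `|ρ_π(G)| ≤ 3 σ_π(G)` fails for some finite group `G`. -/
theorem result :
    (∀ π : Set ℕ, (∀ q ∈ π, q.Prime) → π.Infinite → 7 ∈ π → 2 ∉ π → 3 ∉ π →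
      (∀ N : ℕ, ∃ (G : Type) (_ : Group G), Finite G ∧
        (∀ n, IsIrrDegree G n → IsPiNumber π n → n.primeFactors.card ≤ 2) ∧ sigmaPi π G ≤ 2 ∧
        (rhoPi π G).Finite ∧ N ≤ (rhoPi π G).ncard) ∧
      (¬ ∃ f : ℕ → ℝ, ∀ (G : Type) [Group G] [Finite G],
        ((rhoPi π G).ncard : ℝ) ≤ f (sigmaPi π G)) ∧
      (∃ (G : Type) (_ : Group G), Finite G ∧ 3 * sigmaPi π G < (rhoPi π G).ncard)) ∧
    ((∀ q ∈ P5, q.Prime) ∧ P5.Infinite ∧ 7 ∈ P5 ∧ 2 ∉ P5 ∧ 3 ∉ P5) := by
  refine ⟨?_, ?_, ?_, ?_, ?_, ?_⟩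
  · intro π hπ hinf h7 h2 h3
    have hmain := main π hπ hinf h7 h2 h3
    refine ⟨hmain, ?_, ?_⟩
    · rintro ⟨f, hf⟩
      obtain ⟨N, hN⟩ := exists_nat_gt (max (f 0) (max (f 1) (f 2)))
      obtain ⟨G, _, hG, _, hs, _, hr⟩ := hmain N
      have h4 := hf G
      have h5 : (N : ℝ) ≤ ((rhoPi π G).ncard : ℝ) := by exact_mod_cast hr
      have h6 : f (sigmaPi π G) ≤ max (f 0) (max (f 1) (f 2)) := by
        interval_cases sigmaPi π G
        · exact le_max_left _ _
        · exact le_trans (le_max_left _ _) (le_max_right _ _)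
        · exact le_trans (le_max_right _ _) (le_max_right _ _)
      linarith
    · obtain ⟨G, _, hG, _, hs, _, hr⟩ := hmain 7
      exact ⟨G, inferInstance, hG, by omega⟩
  · intro q hq; exact hq.1
  · have h := Nat.infinite_setOfPred_prime.sdiff (Set.finite_lt_nat 5)
    refine h.mono ?_
    rintro q ⟨h1, h2⟩
    exact ⟨h1, by simpa using h2⟩
  · exact ⟨by norm_num, by norm_num⟩
  · intro h; have := h.2; omega
  · intro h; have := h.2; omega

end Pool.Agent.Results.MP_d028d5_al.NoBound
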